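import Mathlib

/-!
# The closure of an open convex set may locate a monotone operator that the set does not locate

The space is the plane, `V` is the open unit ball (for the maximum norm, so an open square), and `T`
consists of the points `((t, 0), 0)` with `|t| ≤ 1` and of the points `((1, 0), n * snd)`, `n` real.
-/

set_option autoImplicit false

namespace Pool.Agent.Results.MP_ddf116_an.ClosureLocates

open Set

section Definitions

variable {X : Type*} [AddCommGroup X] [Module ℝ X] [TopologicalSpace X]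

/-- An operator from `X` to its topological dual is identified with its graph. -/
abbrev Operator (X : Type*) [AddCommGroup X] [Module ℝ X] [TopologicalSpace X] :=
  Set (X × (X →L[ℝ] ℝ))

/-- The domain of an operator. -/
def dom (T : Operator X) : Set X := {x | ∃ f : X →L[ℝ] ℝ, (x, f) ∈ T}

/-- Monotone operators. -/
def IsMonotone (T : Operator X) : Prop :=
  ∀ p ∈ T, ∀ q ∈ T, 0 ≤ (p.2 - q.2) (p.1 - q.1)

/-- The restriction of an operator to a set. -/
def restrict (T : Operator X) (V : Set X) : Operator X := {p | p ∈ T ∧ p.1 ∈ V}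

/-- The point `(x, f)` is monotonically related to `S`. -/
def MonRelated (S : Operator X) (x : X) (f : X →L[ℝ] ℝ) : Prop :=
  ∀ p ∈ S, 0 ≤ (f - p.2) (x - p.1)

/-- The set `V` locates `T`. -/
def Locates (V : Set X) (T : Operator X) : Prop :=
  ∀ x ∈ V, ∀ f : X →L[ℝ] ℝ, MonRelated (restrict T V) x f → x ∈ dom T

end Definitions

/-- The operator of the example. -/
def ex : Operator (ℝ × ℝ) :=
  {p | ∃ t : ℝ, |t| ≤ 1 ∧ p = ((t, 0), 0)} ∪
    {p | ∃ n : ℝ, p = ((1, 0), n • ContinuousLinearMap.snd ℝ ℝ ℝ)}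

theorem ex_monotone : IsMonotone ex := by
  rintro p (⟨t, -, rfl⟩ | ⟨n, rfl⟩) q (⟨s, -, rfl⟩ | ⟨m, rfl⟩) <;> simp

theorem mem_dom {t : ℝ} (ht : |t| ≤ 1) : (t, (0 : ℝ)) ∈ dom ex :=
  ⟨0, Or.inl ⟨t, ht, rfl⟩⟩

theorem snd_of_mem_dom {x : ℝ × ℝ} (hx : x ∈ dom ex) : x.2 = 0 := by
  obtain ⟨f, (⟨t, -, h⟩ | ⟨n, h⟩)⟩ := hx
  · have := congrArg (fun p : (ℝ × ℝ) × ((ℝ × ℝ) →L[ℝ] ℝ) => p.1.2) h
    simpa using this
  · have := congrArg (fun p : (ℝ × ℝ) × ((ℝ × ℝ) →L[ℝ] ℝ) => p.1.2) h
    simpa using this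

/-- **Disproof of Q1.** In the plane there are a monotone operator `T` and an open convex set `V`
meeting the domain of `T` such that the closure of `V` locates `T` and `V` does not. -/
theorem result : ∃ (T : Operator (ℝ × ℝ)) (V : Set (ℝ × ℝ)),
    IsMonotone T ∧ IsOpen V ∧ Convex ℝ V ∧ (V ∩ dom T).Nonempty ∧
      Locates (closure V) T ∧ ¬ Locates V T := by
  have hcl : closure (Metric.ball (0 : ℝ × ℝ) 1) = Metric.closedBall 0 1 :=
    closure_ball 0 one_ne_zero
  refine ⟨ex, Metric.ball 0 1, ex_monotone, Metric.isOpen_ball, convex_ball _ _, ?_, ?_, ?_⟩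
  · exact ⟨(0, 0), by simp, mem_dom (by simp)⟩
  · rw [hcl]
    intro x hx f hf
    have hx1 : |x.1| ≤ 1 := by
      have h1 : ‖x‖ ≤ 1 := by simpa using hx
      exact (norm_fst_le x).trans h1
    have key : ∀ n : ℝ, 0 ≤ (f - n • ContinuousLinearMap.snd ℝ ℝ ℝ) (x - (1, 0)) := by
      intro n
      have h := hf ((1, 0), n • ContinuousLinearMap.snd ℝ ℝ ℝ) ⟨Or.inr ⟨n, rfl⟩, ?_⟩
      · exact h
      · simp [Prod.norm_def]
    have hx2 : x.2 = 0 := by
      by_contra hne
      have h := key ((f (x - (1, 0)) + 1) / x.2)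
      simp only [sub_apply, smul_apply,
        ContinuousLinearMap.coe_snd', Prod.snd_sub, sub_zero, smul_eq_mul] at h
      rw [div_mul_cancel₀ _ hne] at h
      linarith
    have : x = (x.1, 0) := Prod.ext rfl hx2
    rw [this]
    exact mem_dom hx1
  · intro h
    have h2 := h (0, 1 / 2) (by simp [Prod.norm_def]; norm_num) 0 ?_
    · have := snd_of_mem_dom h2
      norm_num at this
    · rintro p ⟨(⟨t, -, rfl⟩ | ⟨n, rfl⟩), hp⟩
      · simp
      · exfalso
        simp [Prod.norm_def] at hp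

end Pool.Agent.Results.MP_ddf116_an.ClosureLocates
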